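import Pool.Agent.helper37.NG.Spec

set_option autoImplicit false

namespace Pool.Agent.helper37.NG

open Finset Pool.Agent.NK Pool.Agent.helper37.NF

theorem PO4_red (t n : ℝ) (ht : 11 ≤ t)
    (h : 0 ≤ 3 * t * (n - t) * (n - t - 1) * (n - 3) * (3 * (3 * t - 5) * (3 * t - 4) * (3 * t - 2) * (3 * t - 1)) -
      (20 * t * (t - 1) * (2 * t - 1) * (2 * t - 3) * (n * (n - 1) * (n - 2) * (n - 3)) +
        4 * t * (t - 1) * (t - 2) * (n - t) * (3 * (3 * t - 5) * (3 * t - 4) * (3 * t - 2) * (3 * t - 1)))) :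
    g3 t * (n * (n - 1) * (n - 2) * (n - 3)) + 4 * t * (t - 1) * (t - 2) * (n - t) ≤
      3 * t * (n - t) * (n - t - 1) * (n - 3) := by
  have h1 : 0 < 3 * t - 5 := by linarith
  have h2 : 0 < 3 * t - 4 := by linarith
  have h3 : 0 < 3 * t - 2 := by linarith
  have h4 : 0 < 3 * t - 1 := by linarith
  have hD : 0 < 3 * (3 * t - 5) * (3 * t - 4) * (3 * t - 2) * (3 * t - 1) := by positivity
  unfold g3
  rw [div_mul_eq_mul_div, div_add' _ _ _ hD.ne', div_le_iff₀ hD]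
  linarith

theorem PO4_c1 (v n : ℝ) (hv : 0 ≤ v) (hn : n = 4 * v + 43) :
    0 ≤ 3 * (11 + v) * (n - (11 + v)) * (n - (11 + v) - 1) * (n - 3) * (3 * (3 * (11 + v) - 5) * (3 * (11 + v) - 4) * (3 * (11 + v) - 2) * (3 * (11 + v) - 1)) -
      (20 * (11 + v) * ((11 + v) - 1) * (2 * (11 + v) - 1) * (2 * (11 + v) - 3) * (n * (n - 1) * (n - 2) * (n - 3)) +
        4 * (11 + v) * ((11 + v) - 1) * ((11 + v) - 2) * (n - (11 + v)) * (3 * (3 * (11 + v) - 5) * (3 * (11 + v) - 4) * (3 * (11 + v) - 2) * (3 * (11 + v) - 1))) := by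
  have h : 3 * (11 + v) * (n - (11 + v)) * (n - (11 + v) - 1) * (n - 3) * (3 * (3 * (11 + v) - 5) * (3 * (11 + v) - 4) * (3 * (11 + v) - 2) * (3 * (11 + v) - 1)) -
      (20 * (11 + v) * ((11 + v) - 1) * (2 * (11 + v) - 1) * (2 * (11 + v) - 3) * (n * (n - 1) * (n - 2) * (n - 3)) +
        4 * (11 + v) * ((11 + v) - 1) * ((11 + v) - 2) * (n - (11 + v)) * (3 * (3 * (11 + v) - 5) * (3 * (11 + v) - 4) * (3 * (11 + v) - 2) * (3 * (11 + v) - 1))) =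
      258153920640 * v ^ 0 + 211448665344 * v ^ 1 + 75478822688 * v ^ 2 + 15342377856 * v ^ 3 + 1942983792 * v ^ 4 + 157028016 * v ^ 5 + 7910832 * v ^ 6 + 227184 * v ^ 7 + 2848 * v ^ 8 := by
    subst hn
    ring
  rw [h]
  positivity

theorem PO4_c2 (v n : ℝ) (hv : 0 ≤ v) (hn : n = 4 * v + 42) :
    0 ≤ 3 * (11 + v) * (n - (11 + v)) * (n - (11 + v) - 1) * (n - 3) * (3 * (3 * (11 + v) - 5) * (3 * (11 + v) - 4) * (3 * (11 + v) - 2) * (3 * (11 + v) - 1)) -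
      (20 * (11 + v) * ((11 + v) - 1) * (2 * (11 + v) - 1) * (2 * (11 + v) - 3) * (n * (n - 1) * (n - 2) * (n - 3)) +
        4 * (11 + v) * ((11 + v) - 1) * ((11 + v) - 2) * (n - (11 + v)) * (3 * (3 * (11 + v) - 5) * (3 * (11 + v) - 4) * (3 * (11 + v) - 2) * (3 * (11 + v) - 1))) := by
  have h : 3 * (11 + v) * (n - (11 + v)) * (n - (11 + v) - 1) * (n - 3) * (3 * (3 * (11 + v) - 5) * (3 * (11 + v) - 4) * (3 * (11 + v) - 2) * (3 * (11 + v) - 1)) -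
      (20 * (11 + v) * ((11 + v) - 1) * (2 * (11 + v) - 1) * (2 * (11 + v) - 3) * (n * (n - 1) * (n - 2) * (n - 3)) +
        4 * (11 + v) * ((11 + v) - 1) * ((11 + v) - 2) * (n - (11 + v)) * (3 * (3 * (11 + v) - 5) * (3 * (11 + v) - 4) * (3 * (11 + v) - 2) * (3 * (11 + v) - 1))) =
      237644668800 * v ^ 0 + 196349212920 * v ^ 1 + 70746093714 * v ^ 2 + 14522998031 * v ^ 3 + 1858297912 * v ^ 4 + 151799990 * v ^ 5 + 7732246 * v ^ 6 + 224579 * v ^ 7 + 2848 * v ^ 8 := by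
    subst hn
    ring
  rw [h]
  positivity

theorem PO4_c3 (v n : ℝ) (hv : 0 ≤ v) (hn : n = 4 * v + 41) :
    0 ≤ 3 * (11 + v) * (n - (11 + v)) * (n - (11 + v) - 1) * (n - 3) * (3 * (3 * (11 + v) - 5) * (3 * (11 + v) - 4) * (3 * (11 + v) - 2) * (3 * (11 + v) - 1)) -
      (20 * (11 + v) * ((11 + v) - 1) * (2 * (11 + v) - 1) * (2 * (11 + v) - 3) * (n * (n - 1) * (n - 2) * (n - 3)) +
        4 * (11 + v) * ((11 + v) - 1) * ((11 + v) - 2) * (n - (11 + v)) * (3 * (3 * (11 + v) - 5) * (3 * (11 + v) - 4) * (3 * (11 + v) - 2) * (3 * (11 + v) - 1))) := by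
  have h : 3 * (11 + v) * (n - (11 + v)) * (n - (11 + v) - 1) * (n - 3) * (3 * (3 * (11 + v) - 5) * (3 * (11 + v) - 4) * (3 * (11 + v) - 2) * (3 * (11 + v) - 1)) -
      (20 * (11 + v) * ((11 + v) - 1) * (2 * (11 + v) - 1) * (2 * (11 + v) - 3) * (n * (n - 1) * (n - 2) * (n - 3)) +
        4 * (11 + v) * ((11 + v) - 1) * ((11 + v) - 2) * (n - (11 + v)) * (3 * (3 * (11 + v) - 5) * (3 * (11 + v) - 4) * (3 * (11 + v) - 2) * (3 * (11 + v) - 1))) =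
      215809292160 * v ^ 0 + 180517404816 * v ^ 1 + 65845207420 * v ^ 2 + 13683070906 * v ^ 3 + 1772202932 * v ^ 4 + 146520544 * v ^ 5 + 7552880 * v ^ 6 + 221974 * v ^ 7 + 2848 * v ^ 8 := by
    subst hn
    ring
  rw [h]
  positivity

theorem PO4_c4 (v n : ℝ) (hv : 0 ≤ v) (hn : n = 4 * v + 40) :
    0 ≤ 3 * (11 + v) * (n - (11 + v)) * (n - (11 + v) - 1) * (n - 3) * (3 * (3 * (11 + v) - 5) * (3 * (11 + v) - 4) * (3 * (11 + v) - 2) * (3 * (11 + v) - 1)) -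
      (20 * (11 + v) * ((11 + v) - 1) * (2 * (11 + v) - 1) * (2 * (11 + v) - 3) * (n * (n - 1) * (n - 2) * (n - 3)) +
        4 * (11 + v) * ((11 + v) - 1) * ((11 + v) - 2) * (n - (11 + v)) * (3 * (3 * (11 + v) - 5) * (3 * (11 + v) - 4) * (3 * (11 + v) - 2) * (3 * (11 + v) - 1))) := by
  have h : 3 * (11 + v) * (n - (11 + v)) * (n - (11 + v) - 1) * (n - 3) * (3 * (3 * (11 + v) - 5) * (3 * (11 + v) - 4) * (3 * (11 + v) - 2) * (3 * (11 + v) - 1)) -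
      (20 * (11 + v) * ((11 + v) - 1) * (2 * (11 + v) - 1) * (2 * (11 + v) - 3) * (n * (n - 1) * (n - 2) * (n - 3)) +
        4 * (11 + v) * ((11 + v) - 1) * ((11 + v) - 2) * (n - (11 + v)) * (3 * (3 * (11 + v) - 5) * (3 * (11 + v) - 4) * (3 * (11 + v) - 2) * (3 * (11 + v) - 1))) =
      193012009344 * v ^ 0 + 164131928016 * v ^ 1 + 60811223216 * v ^ 2 + 12826035231 * v ^ 3 + 1684867458 * v ^ 4 + 141192984 * v ^ 5 + 7372734 * v ^ 6 + 219369 * v ^ 7 + 2848 * v ^ 8 := by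
    subst hn
    ring
  rw [h]
  positivity

theorem PO4_c5 (v n : ℝ) (hv : 0 ≤ v) (hn : n = 4 * v + 39) :
    0 ≤ 3 * (11 + v) * (n - (11 + v)) * (n - (11 + v) - 1) * (n - 3) * (3 * (3 * (11 + v) - 5) * (3 * (11 + v) - 4) * (3 * (11 + v) - 2) * (3 * (11 + v) - 1)) -
      (20 * (11 + v) * ((11 + v) - 1) * (2 * (11 + v) - 1) * (2 * (11 + v) - 3) * (n * (n - 1) * (n - 2) * (n - 3)) +
        4 * (11 + v) * ((11 + v) - 1) * ((11 + v) - 2) * (n - (11 + v)) * (3 * (3 * (11 + v) - 5) * (3 * (11 + v) - 4) * (3 * (11 + v) - 2) * (3 * (11 + v) - 1))) := by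
  have h : 3 * (11 + v) * (n - (11 + v)) * (n - (11 + v) - 1) * (n - 3) * (3 * (3 * (11 + v) - 5) * (3 * (11 + v) - 4) * (3 * (11 + v) - 2) * (3 * (11 + v) - 1)) -
      (20 * (11 + v) * ((11 + v) - 1) * (2 * (11 + v) - 1) * (2 * (11 + v) - 3) * (n * (n - 1) * (n - 2) * (n - 3)) +
        4 * (11 + v) * ((11 + v) - 1) * ((11 + v) - 2) * (n - (11 + v)) * (3 * (3 * (11 + v) - 5) * (3 * (11 + v) - 4) * (3 * (11 + v) - 2) * (3 * (11 + v) - 1))) =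
      169595971776 * v ^ 0 + 147363223584 * v ^ 1 + 55677991392 * v ^ 2 + 11955251036 * v ^ 3 + 1596458176 * v ^ 4 + 135820616 * v ^ 5 + 7191808 * v ^ 6 + 216764 * v ^ 7 + 2848 * v ^ 8 := by
    subst hn
    ring
  rw [h]
  positivity

theorem PO4_c6 (v n : ℝ) (hv : 0 ≤ v) (hn : n = 4 * v + 38) :
    0 ≤ 3 * (11 + v) * (n - (11 + v)) * (n - (11 + v) - 1) * (n - 3) * (3 * (3 * (11 + v) - 5) * (3 * (11 + v) - 4) * (3 * (11 + v) - 2) * (3 * (11 + v) - 1)) -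
      (20 * (11 + v) * ((11 + v) - 1) * (2 * (11 + v) - 1) * (2 * (11 + v) - 3) * (n * (n - 1) * (n - 2) * (n - 3)) +
        4 * (11 + v) * ((11 + v) - 1) * ((11 + v) - 2) * (n - (11 + v)) * (3 * (3 * (11 + v) - 5) * (3 * (11 + v) - 4) * (3 * (11 + v) - 2) * (3 * (11 + v) - 1))) := by
  have h : 3 * (11 + v) * (n - (11 + v)) * (n - (11 + v) - 1) * (n - 3) * (3 * (3 * (11 + v) - 5) * (3 * (11 + v) - 4) * (3 * (11 + v) - 2) * (3 * (11 + v) - 1)) -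
      (20 * (11 + v) * ((11 + v) - 1) * (2 * (11 + v) - 1) * (2 * (11 + v) - 3) * (n * (n - 1) * (n - 2) * (n - 3)) +
        4 * (11 + v) * ((11 + v) - 1) * ((11 + v) - 2) * (n - (11 + v)) * (3 * (3 * (11 + v) - 5) * (3 * (11 + v) - 4) * (3 * (11 + v) - 2) * (3 * (11 + v) - 1))) =
      145883263680 * v ^ 0 + 130373486664 * v ^ 1 + 50478153118 * v ^ 2 + 11073999631 * v ^ 3 + 1507139852 * v ^ 4 + 130406746 * v ^ 5 + 7010102 * v ^ 6 + 214159 * v ^ 7 + 2848 * v ^ 8 := by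
    subst hn
    ring
  rw [h]
  positivity

theorem PO4_c7 (v n : ℝ) (hv : 0 ≤ v) (hn : n = 4 * v + 37) :
    0 ≤ 3 * (11 + v) * (n - (11 + v)) * (n - (11 + v) - 1) * (n - 3) * (3 * (3 * (11 + v) - 5) * (3 * (11 + v) - 4) * (3 * (11 + v) - 2) * (3 * (11 + v) - 1)) -
      (20 * (11 + v) * ((11 + v) - 1) * (2 * (11 + v) - 1) * (2 * (11 + v) - 3) * (n * (n - 1) * (n - 2) * (n - 3)) +
        4 * (11 + v) * ((11 + v) - 1) * ((11 + v) - 2) * (n - (11 + v)) * (3 * (3 * (11 + v) - 5) * (3 * (11 + v) - 4) * (3 * (11 + v) - 2) * (3 * (11 + v) - 1))) := by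
  have h : 3 * (11 + v) * (n - (11 + v)) * (n - (11 + v) - 1) * (n - 3) * (3 * (3 * (11 + v) - 5) * (3 * (11 + v) - 4) * (3 * (11 + v) - 2) * (3 * (11 + v) - 1)) -
      (20 * (11 + v) * ((11 + v) - 1) * (2 * (11 + v) - 1) * (2 * (11 + v) - 3) * (n * (n - 1) * (n - 2) * (n - 3)) +
        4 * (11 + v) * ((11 + v) - 1) * ((11 + v) - 2) * (n - (11 + v)) * (3 * (3 * (11 + v) - 5) * (3 * (11 + v) - 4) * (3 * (11 + v) - 2) * (3 * (11 + v) - 1))) =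
      122174902080 * v ^ 0 + 113316666480 * v ^ 1 + 45243140444 * v ^ 2 + 10185483606 * v ^ 3 + 1417075332 * v ^ 4 + 124954680 * v ^ 5 + 6827616 * v ^ 6 + 211554 * v ^ 7 + 2848 * v ^ 8 := by
    subst hn
    ring
  rw [h]
  positivity

theorem PO4_c8 (v n : ℝ) (hv : 0 ≤ v) (hn : n = 4 * v + 36) :
    0 ≤ 3 * (11 + v) * (n - (11 + v)) * (n - (11 + v) - 1) * (n - 3) * (3 * (3 * (11 + v) - 5) * (3 * (11 + v) - 4) * (3 * (11 + v) - 2) * (3 * (11 + v) - 1)) -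
      (20 * (11 + v) * ((11 + v) - 1) * (2 * (11 + v) - 1) * (2 * (11 + v) - 3) * (n * (n - 1) * (n - 2) * (n - 3)) +
        4 * (11 + v) * ((11 + v) - 1) * ((11 + v) - 2) * (n - (11 + v)) * (3 * (3 * (11 + v) - 5) * (3 * (11 + v) - 4) * (3 * (11 + v) - 2) * (3 * (11 + v) - 1))) := by
  have h : 3 * (11 + v) * (n - (11 + v)) * (n - (11 + v) - 1) * (n - 3) * (3 * (3 * (11 + v) - 5) * (3 * (11 + v) - 4) * (3 * (11 + v) - 2) * (3 * (11 + v) - 1)) -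
      (20 * (11 + v) * ((11 + v) - 1) * (2 * (11 + v) - 1) * (2 * (11 + v) - 3) * (n * (n - 1) * (n - 2) * (n - 3)) +
        4 * (11 + v) * ((11 + v) - 1) * ((11 + v) - 2) * (n - (11 + v)) * (3 * (3 * (11 + v) - 5) * (3 * (11 + v) - 4) * (3 * (11 + v) - 2) * (3 * (11 + v) - 1))) =
      98750836800 * v ^ 0 + 96338466336 * v ^ 1 + 40003176300 * v ^ 2 + 9292826831 * v ^ 3 + 1326425542 * v ^ 4 + 119467724 * v ^ 5 + 6644350 * v ^ 6 + 208949 * v ^ 7 + 2848 * v ^ 8 := by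
    subst hn
    ring
  rw [h]
  positivity

theorem PO4_c9 (v n : ℝ) (hv : 0 ≤ v) (hn : n = 4 * v + 35) :
    0 ≤ 3 * (11 + v) * (n - (11 + v)) * (n - (11 + v) - 1) * (n - 3) * (3 * (3 * (11 + v) - 5) * (3 * (11 + v) - 4) * (3 * (11 + v) - 2) * (3 * (11 + v) - 1)) -
      (20 * (11 + v) * ((11 + v) - 1) * (2 * (11 + v) - 1) * (2 * (11 + v) - 3) * (n * (n - 1) * (n - 2) * (n - 3)) +
        4 * (11 + v) * ((11 + v) - 1) * ((11 + v) - 2) * (n - (11 + v)) * (3 * (3 * (11 + v) - 5) * (3 * (11 + v) - 4) * (3 * (11 + v) - 2) * (3 * (11 + v) - 1))) := by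
  have h : 3 * (11 + v) * (n - (11 + v)) * (n - (11 + v) - 1) * (n - 3) * (3 * (3 * (11 + v) - 5) * (3 * (11 + v) - 4) * (3 * (11 + v) - 2) * (3 * (11 + v) - 1)) -
      (20 * (11 + v) * ((11 + v) - 1) * (2 * (11 + v) - 1) * (2 * (11 + v) - 3) * (n * (n - 1) * (n - 2) * (n - 3)) +
        4 * (11 + v) * ((11 + v) - 1) * ((11 + v) - 2) * (n - (11 + v)) * (3 * (3 * (11 + v) - 5) * (3 * (11 + v) - 4) * (3 * (11 + v) - 2) * (3 * (11 + v) - 1))) =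
      75869950464 * v ^ 0 + 79576343616 * v ^ 1 + 34787274496 * v ^ 2 + 8399074456 * v ^ 3 + 1235349488 * v ^ 4 + 113949184 * v ^ 5 + 6460304 * v ^ 6 + 206344 * v ^ 7 + 2848 * v ^ 8 := by
    subst hn
    ring
  rw [h]
  positivity

theorem PO4 : PO4_stmt := by
  intro t n ht h1 h2
  obtain ⟨v, rfl⟩ : ∃ v, t = 11 + v := ⟨t - 11, by omega⟩
  have hv : (0 : ℝ) ≤ (v : ℝ) := Nat.cast_nonneg v
  have hT : (11 : ℝ) ≤ ((11 + v : ℕ) : ℝ) := by push_cast; linarith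
  apply PO4_red _ _ hT
  push_cast
  have key : n = 4 * v + 43 ∨ n = 4 * v + 42 ∨ n = 4 * v + 41 ∨ n = 4 * v + 40 ∨ n = 4 * v + 39 ∨ n = 4 * v + 38 ∨
      n = 4 * v + 37 ∨ n = 4 * v + 36 ∨ n = 4 * v + 35 := by omega
  rcases key with h | h | h | h | h | h | h | h | h
  · exact PO4_c1 v n hv (by rw [h]; push_cast; ring)
  · exact PO4_c2 v n hv (by rw [h]; push_cast; ring)
  · exact PO4_c3 v n hv (by rw [h]; push_cast; ring)
  · exact PO4_c4 v n hv (by rw [h]; push_cast; ring)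
  · exact PO4_c5 v n hv (by rw [h]; push_cast; ring)
  · exact PO4_c6 v n hv (by rw [h]; push_cast; ring)
  · exact PO4_c7 v n hv (by rw [h]; push_cast; ring)
  · exact PO4_c8 v n hv (by rw [h]; push_cast; ring)
  · exact PO4_c9 v n hv (by rw [h]; push_cast; ring)

end Pool.Agent.helper37.NG
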